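import Pool.Agent.H.MP_dc9318_an.B

set_option autoImplicit false

open Filter Topology Complex MeasureTheory Function
open scoped ComplexConjugate InnerProductSpace

namespace Pool.Agent.Results.MP_dc9318_an.No

open Pool.Agent.H.MP_dc9318_an

/-- `u` agrees almost everywhere on `Ω` with a function holomorphic on `Ω`. -/
def Hol {E : Type} [NormedAddCommGroup E] [NormedSpace ℂ E] [MeasureSpace E] (Ω : Set E)
    (u : E → ℂ) : Prop :=
  ∃ h : E → ℂ, DifferentiableOn ℂ h Ω ∧ u =ᵐ[volume.restrict Ω] h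

/-- `v = conj f * g` almost everywhere on `Ω`. -/
def Mult {E : Type} [MeasureSpace E] (Ω : Set E) (f g v : E → ℂ) : Prop :=
  v =ᵐ[volume.restrict Ω] fun z => (starRingEnd ℂ) (f z) * g z

/-- For a subspace `S` of `H` and the graph `M` of a multiplication operator on `H`, the operator
`g ↦ (I - P) (M g)` is densely defined on `S` and extends to a nonzero Hilbert-Schmidt operator. -/
def NonzeroHS {H : Type} [NormedAddCommGroup H] [InnerProductSpace ℂ H] (S : Submodule ℂ H)
    (M : H → H → Prop) : Prop :=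
  Dense {g : S | ∃ v, M g v} ∧ ∃ T : S →L[ℂ] H,
    (∀ (g : S) (v : H), M g v → v - T g ∈ S ∧ T g ∈ Sᗮ) ∧ T ≠ 0 ∧
    ∃ (ι : Type) (e : HilbertBasis ι ℂ S), Summable fun k => ‖T (e k)‖ ^ 2

/-- The Hankel operator with symbol `conj f` on the Bergman space of `Ω` is not a nonzero
Hilbert-Schmidt operator. -/
structure NoHankelHS {E : Type} [NormedAddCommGroup E] [NormedSpace ℂ E] [MeasureSpace E]
    (Ω : Set E) (f : E → ℂ) : Prop where
  out : ∀ S : Submodule ℂ (Lp ℂ 2 (volume.restrict Ω)), (∀ u, u ∈ S ↔ Hol Ω u) →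
    ¬ NonzeroHS S fun g v => Mult Ω f g v

theorem result (n : ℕ) (hn : 2 ≤ n) (Ω : Set (Fin n → ℂ)) (hO : IsOpen Ω) (hc : IsConnected Ω)
    (hb : Bornology.IsBounded Ω)
    (hR : ∀ z ∈ Ω, ∀ θ : Fin n → ℝ, (fun j => Complex.exp (θ j * Complex.I) * z j) ∈ Ω)
    (f : (Fin n → ℂ) → ℂ) (hf : DifferentiableOn ℂ f Ω) : NoHankelHS Ω f := by
  refine ⟨fun S hS => ?_⟩
  obtain rfl : S = Berg Ω := Submodule.ext hS
  rintro ⟨hD', T, hT', T0, ι, e, hs⟩
  have hD : Dense {g : Berg Ω |
      MemLp (fun z => (starRingEnd ℂ) (f z) * g.1 z) 2 (volume.restrict Ω)} :=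
    hD'.mono fun g hg => by
      obtain ⟨v, hv⟩ := hg
      exact (Lp.memLp v).ae_eq hv
  have hT : ∀ g : Berg Ω,
      ∀ hg : MemLp (fun z => (starRingEnd ℂ) (f z) * g.1 z) 2 (volume.restrict Ω),
        hg.toLp _ - T g ∈ Berg Ω ∧ T g ∈ (Berg Ω)ᗮ := fun g hg => hT' g _ hg.coeFn_toLp
  refine T0 ?_
  classical
  have H : Rh Ω := ⟨hO, fun z hz w h => by
    convert hR z hz fun j => (w j).arg - (z j).arg using 1
    funext j
    nth_rw 1 [← norm_mul_exp_arg_mul_I (w j)]
    nth_rw 2 [← norm_mul_exp_arg_mul_I (z j)]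
    rw [h, mul_left_comm, ← Complex.exp_add]
    push_cast
    ring_nf⟩
  choose c c1 c2 using H.glob hc hf
  have hZ : ∀ᵐ z ∂volume.restrict Ω, z ∈ Ω ∩ ZZ n :=
    (ae_restrict_mem hO.measurableSet).and (ae_restrict_of_ae Z_ae)
  by_cases h0 : ∀ β ≠ 0, c β = 0
  · refine DFunLike.coe_injective (Continuous.ext_on hD T.continuous continuous_const
      fun g hg => ?_)
    have e : hg.toLp _ = conj (c 0) • g.1 := Lp.ext (by
      filter_upwards [MemLp.coeFn_toLp hg, Lp.coeFn_smul (conj (c 0)) g.1, hZ] with z h1 h2 h3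
      rw [h1, h2, H.uniq hf.continuousOn h3 fun β hβ => (c1 β z h3).trans (h0 β hβ), c1 0 z h3]
      rfl)
    have k := (Berg Ω).sub_mem ((Berg Ω).smul_mem (conj (c 0)) g.2) (hT g hg).1
    rw [← e, sub_sub_cancel] at k
    exact inner_self_eq_zero.1 ((hT g hg).2 _ k)
  exfalso
  push Not at h0
  obtain ⟨α, α0, a0⟩ := h0
  have hα : Adm Ω α := fun p hp i hi => le_of_not_gt fun k => a0 (c2 α p hp i hi k)
  have mL : ∀ β, Al Ω β → MemLp (mono β) 2 (volume.restrict Ω) := fun β h =>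
    (memLp_two_iff_integrable_sq_norm (mono_meas β).aestronglyMeasurable).2 h.1
  let u : {β // Al Ω β} → Berg Ω := fun β => ⟨(mL β β.2).toLp, mono β, fun z hz =>
    (mono_diff fun j => (ne_or_eq _ _).imp_right (β.2.2 z hz j)).differentiableWithinAt,
    MemLp.coeFn_toLp _⟩
  have p : ∀ β, Al Ω β → 0 < MM Ω β := fun β h => by
    rw [MM, if_pos h]; exact NN_int hO hc.nonempty h.1
  have iu : ∀ β γ, ⟪u β, u γ⟫_ℂ = ∫ z in Ω, conj (mono β z) * mono γ z := fun β γ => by
    rw [Submodule.coe_inner, L2.inner_def]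
    refine integral_congr_ae ?_
    filter_upwards [(mL β β.2).coeFn_toLp, (mL γ γ.2).coeFn_toLp] with z h1 h2
    simp only [u, h1, h2, RCLike.inner_apply']
  have hon : Orthonormal ℂ fun β => ((√(MM Ω β.1))⁻¹ : ℂ) • u β := by
    refine orthonormal_iff_ite.2 fun β γ => ?_
    rw [Submodule.coe_inner, Submodule.coe_smul, Submodule.coe_smul, inner_smul_left,
      inner_smul_right, ← Submodule.coe_inner, iu]
    split_ifs with h
    · have := (Real.sqrt_pos.2 (p γ γ.2)).ne'
      have e : ∫ z in Ω, conj (mono γ z) * mono γ z = (√(MM Ω γ) : ℂ) * √(MM Ω γ) := by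
        rw [← ofReal_mul, Real.mul_self_sqrt (MM_nonneg _), MM, if_pos γ.2,
          ← integral_complex_ofReal]
        simp only [conj_mul', NN, ofReal_pow]
      rw [h, e, map_inv₀, conj_ofReal]
      field_simp [ofReal_ne_zero.2 this]
    · obtain ⟨j, hj⟩ := Function.ne_iff.1 (sub_ne_zero.2 (Subtype.coe_ne_coe.2 (Ne.symm h)))
      have k := rot_int H.inv (Pi.single j ((1 / 2 / (γ.1 - β.1) j : ℝ) : TT))
        fun z => conj (mono β z) * mono γ z
      have e := fourier_add_half_inv_index (T := 1) hj one_pos 0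
      simp only [mono_rot, map_mul, ← UnitAddTorus.mFourier_neg,
        mul_mul_mul_comm _ (conj (mono _ _)), integral_const_mul, ← UnitAddTorus.mFourier_add,
        neg_add_eq_sub] at k
      rw [UnitAddTorus.mFourier, ContinuousMap.coe_mk, Finset.prod_eq_single j
        (fun i _ hi => by simp [Pi.single_eq_of_ne hi]) (by simp), Pi.single_eq_same] at k
      rw [zero_add, fourier_eval_zero] at e
      rw [e] at k
      rw [show ∫ z in Ω, conj (mono β z) * mono γ z = 0 by linear_combination -k / 2, mul_zero,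
        mul_zero]
  let d : (Fin n → ℤ) → ℝ := fun β =>
    if h : Al Ω β then ‖T (((√(MM Ω β))⁻¹ : ℂ) • u ⟨β, h⟩)‖ ^ 2 / ‖c α‖ ^ 2 else 0
  have d0 : ∀ β, 0 ≤ d β := fun β => by
    simp only [d]
    split_ifs <;> positivity
  have ds : Summable d := (Subtype.val_injective (p := Al Ω)).summable_iff
    (fun β h => dif_neg (by simpa using h)) |>.1
    (((hsb T e hs hon).div_const (‖c α‖ ^ 2)).congr fun β => by simp only [d, comp, dif_pos β.2])
  have hd : ∀ β, Al Ω β → Al Ω (β + α) ∧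
      MM Ω (β + α) / MM Ω β - MM Ω β / MM Ω (β - α) ≤ d β := fun β h => by
    obtain ⟨h1, h2⟩ := step H hc hb hf T hD (fun g hg => (hT g hg).1) (c1 α) a0 hα h
      (u := u ⟨β, h⟩) (mL β h).coeFn_toLp
    have := p β h
    refine ⟨h1, ?_⟩
    simp only [d, dif_pos h, map_smul, norm_smul, norm_inv, norm_real, mul_pow, inv_pow,
      Real.norm_eq_abs, sq_abs, Real.sq_sqrt this.le]
    rw [le_div_iff₀' (by positivity), le_inv_mul_iff₀ this]
    refine le_trans (le_of_eq ?_) h2
    field_simp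
  obtain ⟨j, hj⟩ := Function.ne_iff.1 α0
  obtain ⟨z, hz, w, hw, h⟩ : ∃ z ∈ Ω ∩ ZZ n, ∃ w ∈ Ω ∩ ZZ n, NN α z < NN α w := by
    obtain ⟨q, hq⟩ := Z_dense.inter_open_nonempty _ hO hc.nonempty
    have l : ContinuousAt (fun t : ℝ => fun i => (update (fun _ => (1 : ℝ)) j t i : ℝ) * q i) 1 := by
      refine continuousAt_pi.2 fun i => ?_
      rcases eq_or_ne i j with rfl | k
      · simp only [update_self]; fun_prop
      · simp only [update_of_ne k]; fun_prop
    obtain ⟨t, h1, h2⟩ := (((l.eventually_mem ((hO.inter Z_open).mem_nhds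
      (by simpa using hq))).filter_mono (nhdsWithin_le_nhds (s := Set.Ioi 1))).and
      self_mem_nhdsWithin).exists
    have t0 : 0 < t := one_pos.trans h2
    refine (ne_iff_lt_or_gt.1 (?_ : NN α q ≠ NN α _)).elim (fun k => ⟨_, hq, _, h1, k⟩)
      fun k => ⟨_, h1, _, hq, k⟩
    intro k
    have e : ‖mono α q‖ = t ^ α j * ‖mono α q‖ := by
      refine ((sq_eq_sq₀ (norm_nonneg _) (norm_nonneg _)).1 k).trans ?_
      simp only [mono, mul_zpow, Finset.prod_mul_distrib, norm_mul]
      rw [Finset.prod_eq_single j (fun i _ hi => by simp [update_of_ne hi]) (by simp)]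
      simp [abs_of_pos t0]
    exact hj ((zpow_eq_one_iff_right₀ t0.le (ne_of_gt h2)).1 ((mul_eq_right₀
      (norm_ne_zero_iff.2 (mono_ne α hq.2))).1 e.symm))
  obtain ⟨a, h1, h2⟩ := exists_between h
  obtain ⟨b, h2, h3⟩ := exists_between h2
  have := Fin.nontrivial_iff_two_le.2 hn
  obtain ⟨i, hi⟩ := exists_ne j
  have inj : Injective fun x : ℕ × ℤ => Pi.single i (x.1 : ℤ) + x.2 • α := fun x y k => by
    have k1 := congrFun k j
    simp only [Pi.add_apply, Pi.single_eq_of_ne hi.symm, zero_add, Pi.smul_apply, smul_eq_mul] at k1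
    have k2 := mul_right_cancel₀ hj k1
    simp only [k2, add_left_inj, Pi.single_inj, Nat.cast_inj] at k
    exact Prod.ext k k2
  have s := ds.comp_injective inj
  obtain ⟨m, hm⟩ := (s.prod.tendsto_atTop_zero.eventually_lt_const (sub_pos.2 h2)).exists
  have nn : ∀ k, 0 ≤ (Pi.single i (m : ℤ) : Fin n → ℤ) k := fun k => by
    rw [Pi.single_apply]
    split_ifs <;> positivity
  refine hm.not_ge (line H hc hz hw h1 h2 h3 ⟨(ContinuousOn.integrableOn_compact
    hb.isCompact_closure fun x _ => ?_).mono_set subset_closure, fun _ _ k _ => nn k⟩ d0 hd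
    (s.prod_factor m))
  exact ((mono_diff fun k => Or.inr (nn k)).continuousAt.norm.pow 2).continuousWithinAt

end Pool.Agent.Results.MP_dc9318_an.No
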